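import Pool.Agent.T9h17.Pl.Spec2

namespace Pool.Agent.T9h26.PL

open Polynomial

theorem stK_aux (p p' r : ℕ) (Λ B : Matrix (Fin p) (Fin p') ℂ) (hΛ : Λ ≠ 0) (hr : 1 ≤ r)
    (e : Fin r → Fin p) (f : Fin r → Fin p') (hef : (B.submatrix e f).det ≠ 0) :
    ∃ (P : Matrix (Fin r) (Fin p) ℂ) (Q : Matrix (Fin p') (Fin r) ℂ),
      (P * B * Q).det ≠ 0 ∧ P * Λ * Q ≠ 0 := by
  classical
  obtain ⟨i, j, hij⟩ : ∃ i j, Λ i j ≠ 0 := by
    by_contra hcon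
    push Not at hcon
    exact hΛ (by ext i j; simpa using hcon i j)
  obtain ⟨z⟩ : Nonempty (Fin r) := ⟨⟨0, hr⟩⟩
  obtain ⟨P₀, hP₀⟩ : ∃ P₀ : Matrix (Fin r) (Fin p) ℂ,
      P₀ = (1 : Matrix (Fin p) (Fin p) ℂ).submatrix e id := ⟨_, rfl⟩
  obtain ⟨Q₀, hQ₀⟩ : ∃ Q₀ : Matrix (Fin p') (Fin r) ℂ,
      Q₀ = (1 : Matrix (Fin p') (Fin p') ℂ).submatrix id f := ⟨_, rfl⟩
  obtain ⟨P₁, hP₁⟩ : ∃ P₁ : Matrix (Fin r) (Fin p) ℂ,
      P₁ = Matrix.single z i (1 : ℂ) := ⟨_, rfl⟩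
  obtain ⟨Q₁, hQ₁⟩ : ∃ Q₁ : Matrix (Fin p') (Fin r) ℂ,
      Q₁ = Matrix.single j z (1 : ℂ) := ⟨_, rfl⟩
  have h0 : P₀ * B * Q₀ = B.submatrix e f := by
    ext a b
    simp [hP₀, hQ₀, Matrix.mul_apply, Matrix.one_apply]
  have h1 : (P₁ * Λ * Q₁) z z = Λ i j := by
    simp [hP₁, hQ₁, Matrix.mul_apply, Matrix.single_apply]
  have key : ∀ (M : Matrix (Fin p) (Fin p') ℂ) (s : ℂ),
      (P₀ + s • P₁) * M * (Q₀ + s • Q₁) =
        P₀ * M * Q₀ + s • (P₁ * M * Q₀ + P₀ * M * Q₁) + s ^ 2 • (P₁ * M * Q₁) := by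
    intro M s
    simp only [Matrix.add_mul, Matrix.mul_add, Matrix.smul_mul, Matrix.mul_smul, smul_add,
      smul_smul, pow_two]
    abel
  obtain ⟨D, hD⟩ : ∃ D : ℂ[X], D = (Matrix.of (fun a b : Fin r =>
      C ((P₀ * B * Q₀) a b) + X * C ((P₁ * B * Q₀ + P₀ * B * Q₁) a b) +
      X ^ 2 * C ((P₁ * B * Q₁) a b))).det := ⟨_, rfl⟩
  have hDs : ∀ s : ℂ, D.eval s = ((P₀ + s • P₁) * B * (Q₀ + s • Q₁)).det := by
    intro s
    rw [key, hD, ← Polynomial.coe_evalRingHom, RingHom.map_det]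
    congr 1
    ext a b
    simp only [RingHom.mapMatrix_apply, Matrix.map_apply, Matrix.of_apply, coe_evalRingHom,
      eval_add, eval_mul, eval_C, eval_X, eval_pow, Matrix.add_apply, Matrix.smul_apply,
      smul_eq_mul]
  have hD0 : D ≠ 0 := by
    intro hcon
    have h2 := hDs 0
    rw [hcon] at h2
    simp only [eval_zero, zero_smul, add_zero, h0] at h2
    exact hef h2.symm
  obtain ⟨E, hE⟩ : ∃ E : ℂ[X], E = C ((P₀ * Λ * Q₀) z z) +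
      C ((P₁ * Λ * Q₀ + P₀ * Λ * Q₁) z z) * X + C (Λ i j) * X ^ 2 := ⟨_, rfl⟩
  have hEs : ∀ s : ℂ, E.eval s = ((P₀ + s • P₁) * Λ * (Q₀ + s • Q₁)) z z := by
    intro s
    rw [key, hE]
    simp only [eval_add, eval_mul, eval_C, eval_X, eval_pow, Matrix.add_apply, Matrix.smul_apply,
      smul_eq_mul, h1]
    ring
  have hE0 : E ≠ 0 := by
    intro hcon
    have h2 : E.coeff 2 = Λ i j := by
      rw [hE]
      simp
    rw [hcon, coeff_zero] at h2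
    exact hij h2.symm
  obtain ⟨s, hs⟩ : ∃ s : ℂ, (D * E).eval s ≠ 0 := by
    by_contra hcon
    push Not at hcon
    exact mul_ne_zero hD0 hE0 (Polynomial.funext (fun s => by rw [hcon s, eval_zero]))
  rw [eval_mul] at hs
  refine ⟨P₀ + s • P₁, Q₀ + s • Q₁, ?_, ?_⟩
  · rw [← hDs]
    exact left_ne_zero_of_mul hs
  · intro hcon
    apply right_ne_zero_of_mul hs
    rw [hEs, hcon]
    rfl

theorem stK : Pool.Agent.T9h17.Pl.StK := by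
  intro p p' r Λ B hΛ hr hrk
  obtain ⟨e, f, hef⟩ := Pool.Agent.T9h17.Mu.exists_minor B hrk
  exact stK_aux p p' r Λ B hΛ hr e f hef

end Pool.Agent.T9h26.PL
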